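import Pool.Agent.H1.SE.TarU

/-! # UG: translation of finite sequences -/

set_option linter.unusedVariables false

open Ordinal Order Set
open scoped ZFSet

namespace SE

open SF PSR

theorem ent_inj_H75 {e : V} (hE : IsE e) {k k' : ℕ} (h : ent e k = ent e k') : k = k' := by
  unfold ent at h
  obtain ⟨h, h5⟩ := ZFSet.pair_inj.1 h
  obtain ⟨h, h4⟩ := ZFSet.pair_inj.1 h
  obtain ⟨h, h3⟩ := ZFSet.pair_inj.1 h
  obtain ⟨h1, h2⟩ := ZFSet.pair_inj.1 h
  replace h1 := hE.inj _ _ h1
  replace h2 := hE.inj _ _ h2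
  replace h3 := hE.inj _ _ h3
  replace h4 := hE.inj _ _ h4
  replace h5 := hE.inj _ _ h5
  have key : ∀ a b : ℕ, a.unpair.1 = b.unpair.1 → a.unpair.2 = b.unpair.2 → a = b := by
    intro a b h h'
    rw [← Nat.pair_unpair a, ← Nat.pair_unpair b, h, h']
  exact key _ _ (key _ _ (key _ _ (key _ _ h1 h2) h3) h4) h5

theorem pf_UG : T_AA → T_AF → T_AG → T_AH → T_UG := by
  intro AA AF AG AH e hE
  obtain ⟨-, -, -, aaP, -⟩ := AA
  obtain ⟨-, -, -, -, af1, -, af2, -⟩ := AF
  obtain ⟨ag1, -, -, -, -, agF⟩ := AG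
  obtain ⟨ah1, -⟩ := AH
  have he : ∀ n : ℕ, app e (nS n) ∈ hf := fun n => app_mem hE.fn (nS_mem_om _)
  have hent : ∀ k, ent e k ∈ hf := fun k =>
    aaP _ (aaP _ (aaP _ (aaP _ (he _) _ (he _)) _ (he _)) _ (he _)) _ (he _)
  have hSq : ∀ k, Sq (ln k) (JJ e k) := fun k =>
    isFunc_resS _ _ _ fun x _ => hent _
  have hdm : ∀ k, dm (JJ e k) = nS (ln k) := fun k => dm_resS _ _
  have happ : ∀ k i, i < ln k → app (JJ e k) (nS i) = ent e (en k i) := by
    intro k i hi
    have h := app_resS (F := fun i => ent e (en k (nn i))) (nS_mem_nS.2 hi)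
    have h2 : nn (nS i) = i := nn_nS i
    simp only [h2] at h
    exact h
  refine ⟨fun k => (af1 _ _ (hSq k)).1, ?_, ?_, ?_⟩
  · intro k k' h
    have h1 : ln k = ln k' := by
      have := congrArg dm h
      rw [hdm, hdm] at this
      exact nS_inj.1 this
    have h2 : ∀ i, i < ln k → en k i = en k' i := by
      intro i hi
      have h3 := happ k i hi
      rw [h, happ k' i (h1 ▸ hi)] at h3
      exact (ent_inj_H75 hE h3).symm
    have h4 : Denumerable.ofNat (List ℕ) k = Denumerable.ofNat (List ℕ) k' := by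
      refine List.ext_getElem h1 fun i hi hi' => ?_
      have := h2 i hi
      unfold en at this
      rw [List.getD_eq_getElem _ _ hi, List.getD_eq_getElem _ _ hi'] at this
      exact this
    have h5 := congrArg Encodable.encode h4
    rw [Denumerable.encode_ofNat, Denumerable.encode_ofNat] at h5
    exact h5
  · intro k h
    have h1 : (∅ : V) ∈ JJ e k := by
      rw [h, nS_succ, nS_zero]
      simp
    obtain ⟨x, -, hx⟩ := mem_resS.1 h1
    have h2 : ({x} : V) ∈ ZFSet.pair x (ent e (en k (nn x))) := by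
      rw [ZFSet.pair]
      simp
    rw [hx] at h2
    exact ZFSet.notMem_empty _ h2
  · intro x y1 y2 y3 y4 m
    have hR : ∀ x, Rl (hx e x) ∧ ∀ n : ℕ, app (hx e x) (nS n) = app e (nS (x n)) := by
      intro x
      obtain ⟨h1, h2⟩ := agF (fun n => app e (nS (x (nn n)))) (fun n => he _)
      refine ⟨h1, fun n => ?_⟩
      have := h2 n
      rw [nn_nS] at this
      exact this
    obtain ⟨r1, v1⟩ := ah1 _ _ (hR x).1 (hR y1).1
    obtain ⟨r2, v2⟩ := ah1 _ _ r1 (hR y2).1
    obtain ⟨r3, v3⟩ := ah1 _ _ r2 (hR y3).1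
    obtain ⟨r4, v4⟩ := ah1 _ _ r3 (hR y4).1
    set L := (List.range m).map (p5 x y1 y2 y3 y4) with hL
    have hln : ln (Encodable.encode L) = m := by
      unfold ln
      rw [Denumerable.ofNat_encode, hL]
      simp
    have hS2 := hSq (Encodable.encode L)
    rw [hln] at hS2
    have hen : ∀ i, i < m → en (Encodable.encode L) i = p5 x y1 y2 y3 y4 i := by
      intro i hi
      unfold en
      rw [Denumerable.ofNat_encode, hL]
      rw [List.getD_eq_getElem _ _ (by simpa using hi)]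
      simp
    have hval : ∀ i, i < m →
        app (rs (q5 (hx e x) (hx e y1) (hx e y2) (hx e y3) (hx e y4)) (nS m)) (nS i) =
          app (JJ e (Encodable.encode L)) (nS i) := by
      intro i hi
      rw [happ _ _ (by rw [hln]; exact hi), hen i hi]
      have h3 := ((ag1 _ r4).2.2.1 m).2.2.2 i hi
      have h4 : app (q5 (hx e x) (hx e y1) (hx e y2) (hx e y3) (hx e y4)) (nS i) = _ := v4 i
      unfold q5
      rw [h3, v4 i, v3 i, v2 i, v1 i, (hR x).2, (hR y1).2, (hR y2).2, (hR y3).2, (hR y4).2]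
      unfold ent p5 pr
      simp only [Nat.unpair_pair]
    have hS1 := ((ag1 _ r4).2.2.1 m).2.1
    refine subset_antisymm ?_ ?_
    · exact (af2 _ _ _ _ hS1 hS2).2 ⟨le_refl _, hval⟩
    · exact (af2 _ _ _ _ hS2 hS1).2 ⟨le_refl _, fun l hl => (hval l hl).symm⟩

end SE
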