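import Pool.Agent.H9.SE.TarK
import Pool.Agent.H14.CA.GC

/-! MP_eaeaf5_lc, row KX2 of the module board: the levels `L_γ[A]`, `γ > ω` a limit, are good. -/

open Ordinal Order Set
open scoped ZFSet

namespace SE

open SF CAA

theorem pf_KX2 : T_KX2 := by
  intro A γ hγ hω
  refine ⟨?_, ?_, ?_⟩
  · exact Lh_isTransitive tr0_H14 γ
  · exact ord_mem_Lh tr0_H14 hω
  · intro x hx y hy
    exact opair_H14 hγ hx hy

end SE
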